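import Pool.Agent.H88.MCR.Drawing

/-!
# The base graphs, their blow-ups, and the interface of MP_ffb5eb_co (Q1 is false)
-/

set_option autoImplicit false

namespace Pool.MXC

open Pool.MCR

/-- The edges of the base graph `H0`. -/
def EH : List (Fin 8 × Fin 8) :=
  [(0, 1), (0, 2), (1, 6), (2, 4), (2, 5), (3, 5), (3, 7), (4, 6), (4, 7), (6, 7)]

/-- The base graph `H0`, a subdivision of `K₄`. -/
def H0 : SimpleGraph (Fin 8) := SimpleGraph.fromRel (fun a b => (a, b) ∈ EH)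

/-- The base graph `G0`: `H0` with the additional edge `0 3`. -/
def G0 : SimpleGraph (Fin 8) := SimpleGraph.fromRel (fun a b => (a, b) ∈ (0, 3) :: EH)

instance : DecidableRel H0.Adj := by unfold H0; infer_instance
instance : DecidableRel G0.Adj := by unfold G0; infer_instance

/-- The blow-up of a graph on `Fin 8`: `w a` independent copies of the vertex `a`. -/
def blow (G : SimpleGraph (Fin 8)) (w : Fin 8 → ℕ) : SimpleGraph (Σ a : Fin 8, Fin (w a)) :=
  G.comap Sigma.fst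

/-- The twenty pairs of edges of `H0` that cannot all cross in a drawing of `G0`. -/
def R20 : List (Fin 8 × Fin 8 × Fin 8 × Fin 8) :=
  [(0, 1, 2, 4), (0, 1, 2, 5), (3, 5, 2, 4), (0, 1, 4, 6), (1, 6, 2, 4), (2, 5, 4, 6),
   (0, 2, 4, 7), (2, 5, 4, 7), (3, 5, 4, 7), (0, 1, 6, 7), (1, 6, 3, 7), (1, 6, 4, 7),
   (2, 4, 6, 7), (3, 7, 4, 6), (3, 5, 6, 7), (0, 1, 4, 7), (2, 5, 6, 7), (1, 6, 2, 5),
   (2, 4, 3, 7), (3, 5, 4, 6)]

/-- The four pairs of independent edges of `H0` that do not cross in the drawing of `H0`. -/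
def miss : List (Fin 8 × Fin 8 × Fin 8 × Fin 8) :=
  [(0, 2, 1, 6), (0, 2, 4, 6), (1, 6, 3, 5), (2, 5, 3, 7)]

/-- The eight ways of writing an unordered pair of edges. -/
def orb {α : Type} (q : α × α × α × α) : List (α × α × α × α) :=
  [(q.1, q.2.1, q.2.2.1, q.2.2.2), (q.2.1, q.1, q.2.2.1, q.2.2.2),
   (q.1, q.2.1, q.2.2.2, q.2.2.1), (q.2.1, q.1, q.2.2.2, q.2.2.1),
   (q.2.2.1, q.2.2.2, q.1, q.2.1), (q.2.2.1, q.2.2.2, q.2.1, q.1),
   (q.2.2.2, q.2.2.1, q.1, q.2.1), (q.2.2.2, q.2.2.1, q.2.1, q.1)]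

/-- T20 (93, 26, 96, 76). No drawing of `G0` has all the twenty crossings. -/
def T20_S : Prop := ∀ D : Drawing G0,
  ¬ ∀ p ∈ R20, D.Crosses s(p.1, p.2.1) s(p.2.2.1, p.2.2.2)

/-- CC4 (96). In a drawing of any graph the two pairs of opposite edges of a 4-cycle do not
both cross. -/
def CC4_S : Prop := ∀ (V : Type) (G : SimpleGraph V) (D : Drawing G) (x y z t : V),
  G.Adj x y → G.Adj y z → G.Adj z t → G.Adj t x → x ≠ z → y ≠ t →
  ¬ (D.Crosses s(x, y) s(z, t) ∧ D.Crosses s(z, y) s(x, t))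

/-- LOW (88, 45). The drawing of the blow-up of `H0`: (1) for four vertices over four different
base vertices, two disjoint edges cross unless the base pair is one of the four of `miss`;
(2) if `x, z` are copies of one base vertex and `y, t` are different neighbours of them, then
`x y, z t` cross or `z y, x t` cross. -/
def LOW_S : Prop := ∀ w : Fin 8 → ℕ, ∃ D : Drawing (blow H0 w),
  (∀ x y z t : (Σ a : Fin 8, Fin (w a)), H0.Adj x.1 y.1 → H0.Adj z.1 t.1 →
    x.1 ≠ z.1 → x.1 ≠ t.1 → y.1 ≠ z.1 → y.1 ≠ t.1 →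
    (∀ p ∈ miss, (x.1, y.1, z.1, t.1) ∉ orb p) → D.Crosses s(x, y) s(z, t)) ∧
  (∀ x y z t : (Σ a : Fin 8, Fin (w a)), H0.Adj x.1 y.1 → H0.Adj z.1 t.1 → x.1 = z.1 →
    x ≠ z → y ≠ t → D.Crosses s(x, y) s(z, t) ∨ D.Crosses s(z, y) s(x, t))

/-- The result. -/
def FIN_S : Prop := ∃ (V : Type) (_ : Finite V) (G H : SimpleGraph V) (D : Drawing H),
  H ≤ G ∧ ∀ D' : Drawing G, D'.cr < D.cr

end Pool.MXC
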